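import Pool.Agent.MP_eddcad_an.h43s.Span

set_option autoImplicit false
set_option linter.unusedSectionVars false

namespace Pool.Agent.MP_eddcad_an.H43s

open Matrix Filter Topology Set Module Submodule
open Pool.Agent.MP_eddcad_an.H24

variable {ι : Type} [Fintype ι] [DecidableEq ι] {κ m : ℕ}

/-- a polynomial map -/
noncomputable def xp (b : Fin κ → MvPolynomial ι ℂ) (Z : ι → ℂ) : Fin κ → ℂ :=
  fun a => MvPolynomial.eval Z (b a)

/-- its Taylor coefficients along a line -/
noncomputable def xk (b : Fin κ → MvPolynomial ι ℂ) (k : ℕ) (Z v : ι → ℂ) : Fin κ → ℂ :=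
  fun a => (H24.lp (b a) Z v).coeff k

variable (b : Fin κ → MvPolynomial ι ℂ)

theorem contDiff_xp : ContDiff ℂ 1 (xp b) :=
  contDiff_pi.2 fun a => (AnalyticOnNhd.eval_mvPolynomial (b a)).contDiff

theorem xk_zero (Z v : ι → ℂ) : xk b 0 Z v = xp b Z := by
  funext a
  simp [xk, xp, Polynomial.coeff_zero_eq_eval_zero, eval_lp]

theorem cont_coeff (p : MvPolynomial ι ℂ) (k : ℕ) :
    Continuous fun x : (ι → ℂ) × (ι → ℂ) => (H24.lp p x.1 x.2).coeff k := by
  induction p using MvPolynomial.induction_on generalizing k with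
  | C a => simp only [H24.lp, MvPolynomial.aeval_C]; exact continuous_const
  | add p q hp hq =>
    simp only [H24.lp, map_add, Polynomial.coeff_add] at hp hq ⊢
    exact (hp k).add (hq k)
  | mul_X p i hp =>
    have e : ∀ W δ, (H24.lp (p * MvPolynomial.X i) W δ).coeff k = (H24.lp p W δ).coeff k * W i +
        δ i * if 1 ≤ k then (H24.lp p W δ).coeff (k - 1) else 0 := by
      intro W δ
      have e0 : H24.lp (p * MvPolynomial.X i) W δ =
          H24.lp p W δ * (Polynomial.C (W i) + Polynomial.C (δ i) * Polynomial.X ^ 1) := by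
        rw [H24.lp, map_mul, MvPolynomial.aeval_X, H24.lp, pow_one]
      rw [e0, mul_add, Polynomial.coeff_add, Polynomial.coeff_mul_C,
        mul_left_comm, Polynomial.coeff_C_mul, Polynomial.coeff_mul_X_pow']
    simp only [e]
    refine ((hp k).mul (by fun_prop)).add (Continuous.mul (by fun_prop) ?_)
    split_ifs
    · exact hp _
    · exact continuous_const

theorem cont_xk {X : Type} [TopologicalSpace X] (k : ℕ) {Z v : X → ι → ℂ} (hZ : Continuous Z)
    (hv : Continuous v) : Continuous fun x => xk b k (Z x) (v x) :=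
  continuous_pi fun a => by
    have := (cont_coeff (b a) k).comp (hZ.prodMk hv)
    exact this

theorem deriv_xk (k : ℕ) (Z v : ι → ℂ) (c : ℂ) : HasDerivAt (fun t : ℂ => xk b k (Z + (t * c) • v) v)
    ((((k + 1 : ℕ) : ℂ) * c) • xk b (k + 1) Z v) 0 := by
  refine hasDerivAt_pi.2 fun a => ?_
  have e : ∀ s : ℂ, xk b k (Z + s • v) v a = (Polynomial.hasseDeriv k (H24.lp (b a) Z v)).eval s := by
    intro s
    rw [← Polynomial.taylor_coeff, xk]
    congr 1
    refine Polynomial.funext fun t => ?_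
    rw [Polynomial.taylor_eval, eval_lp, eval_lp, add_smul, add_assoc, add_comm (s • v)]
  simp only [e]
  have h1 := ((Polynomial.hasseDeriv k (H24.lp (b a) Z v)).hasDerivAt (0 * c)).comp (0 : ℂ)
    ((hasDerivAt_id (0 : ℂ)).mul_const c)
  convert! h1 using 1
  rw [zero_mul, ← Polynomial.coeff_zero_eq_eval_zero, Polynomial.coeff_derivative,
    Polynomial.hasseDeriv_coeff, zero_add, add_comm 1 k, Nat.choose_succ_self_right]
  simp only [Pi.smul_apply, xk, smul_eq_mul]
  push_cast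
  ring

theorem sum_xk : ∃ K, (∀ k ≥ K, ∀ Z v, xk b k Z v = 0) ∧
    ∀ Z v (t : ℂ), xp b (Z + t • v) = ∑ k ∈ Finset.range K, t ^ k • xk b k Z v := by
  choose M hM using fun a => natDegree_lp (b a)
  have h : ∀ a Z v, (H24.lp (b a) Z v).natDegree < Finset.univ.sup M + 1 := fun a Z v =>
    Nat.lt_succ_of_le ((hM a Z v).trans (Finset.le_sup (Finset.mem_univ a)))
  refine ⟨Finset.univ.sup M + 1, fun k hk Z v => funext fun a =>
    Polynomial.coeff_eq_zero_of_natDegree_lt ((h a Z v).trans_le hk), fun Z v t => funext fun a => ?_⟩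
  rw [xp, ← eval_lp, Polynomial.eval_eq_sum_range' (h a Z v), Finset.sum_apply]
  exact Finset.sum_congr rfl fun k _ => mul_comm _ _

/-- `Δ` vanishes on the span of the image of every subspace with `m` generators -/
def Van (Δ : (Fin κ → ℂ) → ℂ) (m : ℕ) : Prop :=
  ∀ N : Fin m → ι → ℂ, ∀ ξ ∈ span ℂ (range fun y : Fin m → ℂ => xp b (∑ i, y i • N i)), Δ ξ = 0

theorem van_good (hκ : κ < (m + 1).choose 2) {Δ : (Fin κ → ℂ) → ℂ} (hΔ : Differentiable ℂ Δ)
    (hv : Van b Δ m) (N : Fin m → ι → ℂ) (v : ι → ℂ)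
    (hrel : ∀ k i, ∀ h ∈ Hk (fun k y => xk b k (∑ i, y i • N i) v) (k + 1),
      (fun y => y i * h y) ∈ Hk (fun k (y : Fin m → ℂ) => xk b k (∑ i, y i • N i) v) k) :
    ∀ ξ ∈ span ℂ (range fun y : Fin (m + 1) → ℂ => xp b (∑ i, y i.succ • N i + y 0 • v)),
      Δ ξ = 0 := by
  set u := fun k (y : Fin m → ℂ) => xk b k (∑ i, y i • N i) v with hu
  have hc : ∀ k, Continuous (u k) := fun k => cont_xk b k (by fun_prop) continuous_const
  have hκ' : finrank ℂ (Fin κ → ℂ) < (m + 1).choose 2 := by rwa [finrank_fin_fun]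
  obtain ⟨K, -, hK⟩ := sum_xk b
  have h1 : ∀ (y : Fin m → ℂ) (t : ℂ), xp b (∑ i, y i • N i + t • v) ∈ Jk u 2 := fun y t => by
    rw [hK]
    exact sum_mem fun k _ => smul_mem _ _ (level_two hc hrel hκ' k y)
  obtain ⟨j, y, hy, h2⟩ := level_one hc (hrel 0) hκ'
  obtain ⟨G, hG⟩ := dual_fam hy
  obtain ⟨f, h3, h4, -⟩ := Submodule.exists_fun_fin_finrank_span_eq ℂ (range (u 0))
  choose z hz using h3
  generalize finrank ℂ (span ℂ (range (u 0))) = r at f z h4 hz
  have hx := contDiff_xp b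
  have h5 := open_van (Ψ := fun p : (Fin j → ℂ) × (Fin r → ℂ) =>
      ∑ l, xp b (∑ i, y l i • N i + (∑ a, p.1 a * G (y l) a) • v) +
        ∑ c, p.2 c • xp b (∑ i, z c i • N i + (∑ a, p.1 a * G (z c) a) • v))
    (by fun_prop) (Jk u 2)
    (fun p => add_mem (sum_mem fun _ _ => h1 _ _) (sum_mem fun _ _ => smul_mem _ _ (h1 _ _)))
    ?_ hΔ fun p => ?_
  · exact fun ξ hξ => h5 ξ (span_le.2 (by rintro _ ⟨y, rfl⟩; exact h1 _ _) hξ)
  · have h6 : ∀ w, u 0 w ∈ span ℂ {η | ∃ w : (Fin j → ℂ) × (Fin r → ℂ), HasDerivAt (fun t : ℂ =>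
        ∑ l, xp b (∑ i, y l i • N i + (∑ a, (t • w).1 a * G (y l) a) • v) + ∑ c, (t • w).2 c •
          xp b (∑ i, z c i • N i + (∑ a, (t • w).1 a * G (z c) a) • v)) η 0} := by
      intro w
      refine span_mono ?_ (h4.ge (subset_span ⟨w, rfl⟩))
      rintro _ ⟨c, rfl⟩
      refine ⟨(0, Pi.single c 1), ?_⟩
      have h7 := ((hasDerivAt_id (0 : ℂ)).smul_const (f c)).const_add
        (∑ l, xp b (∑ i, y l i • N i))
      simpa [← hz, hu, xk_zero, Pi.single_apply, ite_smul] using h7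
    refine Jk_le fun k hk w => ?_
    interval_cases k
    · exact h6 w
    · refine (sup_le (Jk_le fun k hk w => ?_) (span_mono ?_) : _ ≤ span ℂ _) (h2 w)
      · rw [Nat.lt_one_iff.1 hk]
        exact h6 w
      · rintro _ ⟨l, rfl⟩
        refine ⟨(Pi.single l 1, 0), ?_⟩
        have h7 := HasDerivAt.fun_sum (u := Finset.univ) fun l' _ =>
          deriv_xk b 0 (∑ i, y l' i • N i) v (G (y l') l)
        simpa [hu, xk_zero, hG, Pi.single_apply, ite_smul, @eq_comm _ l] using h7
  · have e : ∀ w : Fin m → ℂ, ∑ i, w i • N i + (∑ a, p.1 a * G w a) • v =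
        ∑ i, w i • (N i + (∑ a, p.1 a * G (Pi.single i 1) a) • v) := by
      intro w
      have e0 : G w = ∑ i, w i • G (Pi.single i 1) := by
        conv_lhs => rw [pi_eq_sum_univ' w, map_sum]
        simp only [map_smul]
      simp only [e0, smul_add, Finset.sum_add_distrib, smul_smul, ← Finset.sum_smul,
        Finset.sum_apply, Pi.smul_apply, smul_eq_mul, Finset.mul_sum]
      rw [Finset.sum_comm]
      simp only [mul_left_comm]
    simp only [e]
    exact hv _ _ (add_mem (sum_mem fun _ _ => subset_span ⟨_, rfl⟩)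
      (sum_mem fun _ _ => smul_mem _ _ (subset_span ⟨_, rfl⟩)))

theorem desc (hκ : κ < (m + 1).choose 2) {Δ : (Fin κ → ℂ) → ℂ} (hΔ : Differentiable ℂ Δ)
    (hv : Van b Δ m) : Van b Δ (m + 1) := by
  obtain ⟨K, hK, -⟩ := sum_xk b
  let u : (Fin m → ι → ℂ) × (ι → ℂ) → ℕ → (Fin m → ℂ) → Fin κ → ℂ :=
    fun ω k y => xk b k (∑ i, y i • ω.1 i) ω.2
  obtain ⟨ω0, h0⟩ := gen (fun k ω => finrank ℂ (Jk (u ω) (k + 1))) (finrank ℂ (Fin κ → ℂ)) K
    (fun k ω => Submodule.finrank_le _) fun k ω =>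
      sc (fun ω (p : Fin (k + 1) × (Fin m → ℂ)) => u ω p.1 p.2) fun p =>
        (cont_xk b _ (by fun_prop) continuous_snd).continuousAt
  intro N ξ hξ
  obtain ⟨c, rfl⟩ := Finsupp.mem_span_range_iff_exists_finsupp.1 hξ
  have hx := (contDiff_xp b).differentiable one_ne_zero
  have h1 := ident (g := fun ω : (Fin m → ι → ℂ) × (ι → ℂ) =>
      Δ (∑ y ∈ c.support, c y • xp b (∑ i, y i.succ • ω.1 i + y 0 • ω.2))) (by fun_prop)
    (h0.mono fun ω hω => van_good b hκ hΔ hv ω.1 ω.2 (fun k i h hh => mul_mem_Hk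
      (fun d hd => ?_) hh) _ (sum_mem fun _ _ => smul_mem _ _ (subset_span ⟨_, rfl⟩)))
    (fun i => N i.succ, N 0)
  · simpa only [Fin.sum_univ_succ, add_comm, Finsupp.sum] using h1
  · rcases lt_or_ge k K with hk | hk
    · have ht : Tendsto (fun t : ℂ => (ω.1 + t • (Pi.single i ω.2 : Fin m → ι → ℂ), ω.2)) (𝓝 0) (𝓝 ω) := by
        have : Continuous fun t : ℂ => (ω.1 + t • (Pi.single i ω.2 : Fin m → ι → ℂ), ω.2) := by fun_prop
        simpa using this.tendsto 0
      have e : ∀ t : ℂ, u (ω.1 + t • (Pi.single i ω.2 : Fin m → ι → ℂ), ω.2) =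
          fun k y => xk b k (∑ j, y j • ω.1 j + (t * y i) • ω.2) ω.2 := fun t => by
        funext k y
        simp [u, smul_add, Finset.sum_add_distrib, Pi.single_apply, smul_smul, mul_comm]
      have h2 := rel_of_tilt (fun t k (y : Fin m → ℂ) =>
        xk b k (∑ j, y j • ω.1 j + (t * y i) • ω.2) ω.2) (fun y => y i)
        (fun k y => by
          simpa only [zero_mul, zero_smul, add_zero] using deriv_xk b k _ ω.2 (y i)) (k := k)
      simp only [zero_mul, zero_smul, add_zero] at h2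
      refine h2 ((ht.eventually (hω k hk)).mono fun t h => ?_) d hd
      rw [← e t, ← e 0, zero_smul, add_zero]
      exact h
    · simp [hK (k + 1) (by omega), Finsupp.linearCombination_apply]

theorem van_all (hκ : κ < (m + 1).choose 2) {Δ : (Fin κ → ℂ) → ℂ} (hΔ : Differentiable ℂ Δ)
    (hv : Van b Δ m) : ∀ ξ ∈ span ℂ (range (xp b)), Δ ξ = 0 := by
  have h1 : ∀ r, Van b Δ (m + r) := fun r => by
    induction r with
    | zero => exact hv
    | succ r ih => exact desc b (m := m + r) (hκ.trans_le (Nat.choose_le_choose 2 (by omega))) hΔ ih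
  intro ξ hξ
  obtain ⟨r, c, g, rfl⟩ := Submodule.mem_span_set'.1 hξ
  choose Z hZ using fun i => (g i).2
  refine h1 r (Fin.append 0 Z) _ (sum_mem fun i _ => smul_mem _ _
    (subset_span ⟨Pi.single (Fin.natAdd m i) 1, ?_⟩))
  simp [Pi.single_apply, ite_smul, hZ]

/-- A bilinear map killing the graph of a polynomial map has all slices of small rank. -/
theorem lld (hκ : κ < (m + 1).choose 2) {T : Type} [AddCommGroup T] [Module ℂ T]
    (Φ : (ι → ℂ) →ₗ[ℂ] (Fin κ → ℂ) →ₗ[ℂ] T) {Z0 : ι → ℂ} (h : ∀ᶠ Z in 𝓝 Z0, Φ Z (xp b Z) = 0)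
    {ξ : Fin κ → ℂ} (hξ : ξ ∈ span ℂ (range (xp b))) :
    finrank ℂ (LinearMap.range (Φ.flip ξ)) ≤ m * κ := by
  by_contra hn
  have h4 : m * κ + 1 ≤ finrank ℂ (LinearMap.range (Φ.flip ξ)) := not_le.1 hn
  let φ : Fin (m * κ + 1) → LinearMap.range (Φ.flip ξ) := fun i => finBasis ℂ _ (Fin.castLE h4 i)
  have hφ : LinearIndependent ℂ φ :=
    (finBasis ℂ _).linearIndependent.comp _ (Fin.castLE_injective h4)
  choose Y hY using fun i => (φ i).2
  obtain ⟨G, hG⟩ := dual_fam (hφ.map' _ (Submodule.ker_subtype _))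
  let B := LinearMap.toContinuousLinearMap
    ((LinearMap.toContinuousLinearMap (𝕜 := ℂ)).toLinearMap ∘ₗ Φ.compr₂ G)
  have hB : ∀ Z η, B Z η = G (Φ Z η) := fun _ _ => rfl
  have hx := (contDiff_xp b).differentiable one_ne_zero
  have h1 : ∀ Z, B Z (xp b Z) = 0 := fun Z => funext fun c =>
    ident (g := fun Z => B Z (xp b Z) c) (by fun_prop) (h.mono fun Z hZ => by simp [hB, hZ]) Z
  have h2 := van_all b hκ (Δ := fun η => (Matrix.of fun i c => B (Y i) η c).det) (by
    simp only [det_apply', of_apply]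
    exact (ContDiff.sum fun σ _ => contDiff_const.mul
      (contDiff_prod fun i _ => by fun_prop) : ContDiff ℂ 1 _).differentiable one_ne_zero)
    (fun N η hη => det_eq_zero_of_not_linearIndependent_rows fun hli => ?_) ξ hξ
  · rw [show (Matrix.of fun i c => B (Y i) ξ c) = 1 from ?_, det_one] at h2
    · exact one_ne_zero h2
    ext i c
    rw [of_apply, hB, show Φ (Y i) ξ = _ from hY i, show G (φ i) = _ from hG i, one_apply,
      Pi.single_apply]
    simp only [eq_comm]
  · let M := span ℂ (range fun p : Fin m × Fin κ => B (N p.1) (Pi.single p.2 1))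
    have h3 : ∀ Y', B Y' η ∈ M := fun Y' => by
      refine (span_le (p := M.comap (B Y').toLinearMap)).2 ?_ hη
      rintro _ ⟨y, rfl⟩
      set Z := ∑ i, y i • N i with hZ
      have h5 : HasDerivAt (fun t : ℂ => Z + t • Y') Y' 0 := by
        simpa using ((hasDerivAt_id (0 : ℂ)).smul_const Y').const_add Z
      have h6 := (B.hasFDerivAt.comp_hasDerivAt 0 h5).clm_apply (deriv_xk b 0 Z Y' 1)
      have h7 : B Y' (xp b Z) + B Z (xk b 1 Z Y') = 0 := by
        simpa [xk_zero] using h6.unique ((hasDerivAt_const (0 : ℂ) 0).congr_of_eventuallyEq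
          (Eventually.of_forall fun t => by simp only [xk_zero, mul_one]; exact h1 _))
      change B Y' (xp b Z) ∈ M
      rw [eq_neg_of_add_eq_zero_left h7, pi_eq_sum_univ' (xk b 1 Z Y'), hZ]
      simp only [map_sum, map_smul, _root_.sum_apply, _root_.smul_apply]
      exact neg_mem (sum_mem fun a _ => smul_mem _ _ (sum_mem fun i _ => smul_mem _ _
        (subset_span ⟨(i, a), rfl⟩)))
    have h8 := finrank_span_eq_card hli
    have h9 := (Submodule.finrank_mono (span_le.2 (by rintro _ ⟨i, rfl⟩; exact h3 (Y i)) :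
      span ℂ (range fun i => (Matrix.of fun i c => B (Y i) η c) i) ≤ M)).trans
      (finrank_range_le_card _)
    simp only [Fintype.card_prod, Fintype.card_fin] at h8 h9
    omega

end Pool.Agent.MP_eddcad_an.H43s
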