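import Pool.Agent.MP_eddcad_an.h43s.Lld

set_option autoImplicit false
set_option linter.unusedSectionVars false

namespace Pool.Agent.MP_eddcad_an.H43s

open Matrix Filter Topology Set Module MvPolynomial
open Pool.Agent.MP_eddcad_an.H24

variable {n N : ℕ}

theorem neg_form {τ α : Type} [Fintype τ] [DecidableEq τ] (ω : τ → ℝ) (ψ : α → τ → ℂ)
    (v : α → Fin N → ℂ)
    (h : ∀ a b, star (ψ a) ⬝ᵥ (diagonal (fun t => (ω t : ℂ)) *ᵥ ψ b) = -(star (v a) ⬝ᵥ v b))
    {e : τ → ℂ} (hmem : e ∈ Submodule.span ℂ (range ψ)) : ∑ t, ω t * ‖e t‖ ^ 2 ≤ 0 := by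
  obtain ⟨c, hc⟩ := Finsupp.mem_span_range_iff_exists_finsupp.1 hmem
  have h1 : star e ⬝ᵥ (diagonal (fun t => (ω t : ℂ)) *ᵥ e) =
      -(star (c.sum fun a r => r • v a) ⬝ᵥ c.sum fun a r => r • v a) := by
    rw [← hc]
    simp only [Finsupp.sum, star_sum, star_smul, sum_dotProduct, mulVec_sum, dotProduct_sum,
      mulVec_smul, smul_dotProduct, dotProduct_smul, h, smul_neg, Finset.sum_neg_distrib]
  have h2 : star e ⬝ᵥ (diagonal (fun t => (ω t : ℂ)) *ᵥ e) = ((∑ t, ω t * ‖e t‖ ^ 2 : ℝ) : ℂ) := by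
    simp only [dotProduct, mulVec_diagonal, Pi.star_apply, Complex.ofReal_sum, Complex.ofReal_mul]
    refine Finset.sum_congr rfl fun t _ => ?_
    rw [mul_left_comm, Complex.star_def, ← Complex.normSq_eq_conj_mul_self,
      Complex.normSq_eq_norm_sq]
  rw [h2, star_dot_self, ← Complex.ofReal_neg, Complex.ofReal_inj] at h1
  exact h1.trans_le (neg_nonpos.2 (nsq_nonneg _))

theorem core {κ m : ℕ} (f : (Fin n → ℂ) → Fin N → ℂ)
    (x : (Fin n → ℂ) → Fin κ → ℂ) (l : Fin κ → ℝ) {a0 : Fin κ} (h0 : l a0 < 0)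
    (h : ∀ z ∈ unitBall n, ∀ w ∈ unitBall n, (1 - z ⬝ᵥ star w) *
      (star (x z) ⬝ᵥ (diagonal (fun a => (l a : ℂ)) *ᵥ x w)) = 1 - f z ⬝ᵥ star (f w))
    (s : Fin κ → unitBall n) (hdet : (Matrix.of fun i j => x (s i) j).det ≠ 0)
    (p : Fin κ → MvPolynomial (Fin n) ℂ) (c : (Fin n → ℂ) → ℂ)
    (hp : ∀ w ∈ unitBall n, c w ≠ 0 ∧ ∀ a, eval (star w) (p a) = c w * x w a)
    (hκ : κ < (m + 1).choose 2) : n ≤ m * κ + 1 := by
  let ω : Option (Fin n) × Fin κ → ℝ := fun t => t.1.elim (l t.2) fun _ => -l t.2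
  let ψ : (Fin n → ℂ) → Option (Fin n) × Fin κ → ℂ :=
    fun w t => t.1.elim 1 (star w) * x w t.2
  have hψ : ∀ z ∈ unitBall n, ∀ w ∈ unitBall n,
      star (ψ z) ⬝ᵥ (diagonal (fun t => (ω t : ℂ)) *ᵥ ψ w) = 1 - f z ⬝ᵥ star (f w) := by
    intro z hz w hw
    rw [← h z hz w hw]
    simp only [dotProduct, mulVec_diagonal, Fintype.sum_prod_type, Fintype.sum_option, ψ, ω,
      Option.elim, Pi.star_apply, star_mul', star_star, star_one, one_mul,
      Finset.sum_mul_sum, Complex.ofReal_neg, sub_eq_add_neg, add_mul, neg_mul,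
      ← Finset.sum_neg_distrib]
    congr 1
    exact Finset.sum_congr rfl fun i _ => Finset.sum_congr rfl fun a _ => by ring
  have hz0 : (0 : Fin n → ℂ) ∈ unitBall n := by simp [unitBall]
  have h1 := fun e => neg_form ω (fun w : unitBall n => ψ w - ψ 0) (fun w => star (f w - f 0))
    (fun a b => by
      simp only [star_sub, mulVec_sub, sub_dotProduct, dotProduct_sub, hψ _ a.2 _ b.2,
        hψ _ a.2 _ hz0, hψ _ hz0 _ b.2, hψ _ hz0 _ hz0, star_star]
      ring) (e := e)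
  set S0 := Submodule.span ℂ (range fun w : unitBall n => ψ w - ψ 0) with hS0
  set S := S0 ⊔ Submodule.span ℂ {ψ 0} with hS
  have hmem : ∀ w ∈ unitBall n, ψ w ∈ S := fun w hw => by
    rw [← sub_add_cancel (ψ w) (ψ 0)]
    exact Submodule.add_mem_sup (Submodule.subset_span ⟨⟨w, hw⟩, rfl⟩)
      (Submodule.mem_span_singleton_self _)
  let D := Finset.univ.sup fun a => (p a).totalDegree
  have hD : ∀ a, (p a).totalDegree ≤ D := fun a =>
    Finset.le_sup (f := fun a => (p a).totalDegree) (Finset.mem_univ a)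
  let Φ : (Option (Fin n) → ℂ) →ₗ[ℂ] (Fin κ → ℂ) →ₗ[ℂ] (Option (Fin n) × Fin κ → ℂ) :=
    LinearMap.mk₂ ℂ (fun Z ξ t => Z t.1 * ξ t.2) (fun _ _ _ => by ext; simp [add_mul])
      (fun _ _ _ => by ext; simp [mul_assoc]) (fun _ _ _ => by ext; simp [mul_add])
      fun _ _ _ => by ext; simp [mul_left_comm]
  have hΦ : ∀ Z ξ t, Φ Z ξ t = Z t.1 * ξ t.2 := fun _ _ _ => rfl
  have h2 := lld (fun a => hom 1 D (p a)) hκ (Φ.compr₂ S.mkQ) (Z0 := fun o => o.elim 1 0)
    (ξ := Pi.single a0 1) ?_ ?_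
  · let A : (Fin n → ℂ) →ₗ[ℂ] (Option (Fin n) → ℂ) :=
      LinearMap.pi fun o => o.elim 0 fun i => LinearMap.proj i
    have h3 := LinearMap.finrank_range_add_finrank_ker
      ((Φ.compr₂ S.mkQ).flip (Pi.single a0 1) ∘ₗ A)
    have h4 := (Submodule.finrank_mono (LinearMap.range_comp_le_range A _)).trans h2
    have h5 : finrank ℂ (LinearMap.ker ((Φ.compr₂ S.mkQ).flip (Pi.single a0 1) ∘ₗ A)) ≤
        finrank ℂ (Submodule.span ℂ {S0.mkQ (ψ 0)}) := by
      refine LinearMap.finrank_le_finrank_of_injective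
        (f := ((S0.mkQ ∘ₗ Φ.flip (Pi.single a0 1) ∘ₗ A).domRestrict _).codRestrict _ fun Y => ?_)
        ((injective_iff_map_eq_zero _).2 fun Y hY => Subtype.ext ?_)
      · have h6 := Submodule.mem_map_of_mem (f := S0.mkQ)
          ((Submodule.Quotient.mk_eq_zero _).1 (LinearMap.mem_ker.1 Y.2))
        have h7 : S.map S0.mkQ = Submodule.span ℂ {S0.mkQ (ψ 0)} := by
          rw [hS, Submodule.map_sup, Submodule.mkQ_map_self, bot_sup_eq, Submodule.map_span,
            image_singleton]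
        exact h7.le h6
      · have h6 := h1 _ ((Submodule.Quotient.mk_eq_zero _).1 (congrArg Subtype.val hY))
        have h7 : ∑ t, ω t * ‖Φ (A Y) (Pi.single a0 1) t‖ ^ 2 = -l a0 * nsq (Y : Fin n → ℂ) := by
          simp [hΦ, Fintype.sum_prod_type, Fintype.sum_option, A, ω, Pi.single_apply, apply_ite norm,
            nsq, Finset.mul_sum]
        refine nsq_eq_zero (le_antisymm ?_ (nsq_nonneg _))
        have h8 := h7.ge.trans h6
        nlinarith
    have h6 : finrank ℂ (Submodule.span ℂ {S0.mkQ (ψ 0)}) ≤ 1 := by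
      simpa using finrank_span_le_card (R := ℂ) ({S0.mkQ (ψ 0)} : Set _)
    rw [finrank_fin_fun] at h3
    omega
  · have h4 : Continuous fun Z : Option (Fin n) → ℂ => 1 * Z none := by fun_prop
    have h4' : Continuous fun (Z : Option (Fin n) → ℂ) i => Z (some i) := by fun_prop
    have h3 := ((h4.continuousAt (x := fun o => o.elim 1 0)).inv₀ (by simp)).smul h4'.continuousAt
    filter_upwards [h3.star.eventually_mem (isOpen_unitBall'.mem_nhds (by simp [unitBall])),
      h4.continuousAt.eventually_ne (y := 0) (by simp)] with Z hZ hZ0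
    replace hZ : star ((1 * Z none)⁻¹ • fun i => Z (some i)) ∈ unitBall n := hZ
    refine (Submodule.Quotient.mk_eq_zero _).2 ?_
    have h5 := (hp _ hZ).2
    have h6 := S.smul_mem ((1 * Z none) ^ (D + 1) * c (star ((1 * Z none)⁻¹ • fun i => Z (some i))))
      (hmem _ hZ)
    convert! h6 using 1
    funext t
    simp only [star_star] at h5
    rw [hΦ, xp, eval_hom (hD _) hZ0, h5]
    rw [one_mul] at hZ0
    obtain ⟨_ | i, a⟩ := t
    · simp [ψ]
      ring
    · simp [ψ]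
      field_simp
      ring
  · have h3 := (linearIndependent_rows_of_det_ne_zero hdet).span_eq_top_of_card_eq_finrank'
      (by simp)
    refine Submodule.span_le.2 ?_ (h3.ge Submodule.mem_top)
    rintro _ ⟨i, rfl⟩
    refine (Submodule.smul_mem_iff _ (hp _ (s i).2).1).1
      (Submodule.subset_span ⟨fun o => o.elim 1 (star (s i : Fin n → ℂ)), funext fun a => ?_⟩)
    rw [xp, eval_hom (hD _) (by simp)]
    simpa [Pi.star_def] using (hp _ (s i).2).2 a

theorem stepI' {κ m d : ℕ} {f : (Fin n → ℂ) → (Fin N → ℂ)} (hf : IsProperHol f)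
    {P : Fin N → MvPolynomial (Fin n) ℂ} {q : MvPolynomial (Fin n) ℂ}
    (hP : ∀ j, (P j).totalDegree ≤ d) (hq : q.totalDegree ≤ d) (hd : 1 ≤ d)
    (h : ∀ z ∈ unitBall n, eval z q ≠ 0 ∧ ∀ j, f z j = eval z (P j) / eval z q)
    (s : Fin κ → unitBall n) (hu : IsUnit (Matrix.of fun i j => kern f (s i) (s j)).det)
    (hs : ∀ z w : unitBall n, kern f z w = (fun j => kern f z (s j)) ⬝ᵥ
        ((Matrix.of fun i j => kern f (s i) (s j))⁻¹ *ᵥ fun i => kern f (s i) w))
    (hκ : κ < (m + 1).choose 2) (hm : m * κ + 1 < n) : KernelPSD f := by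
  set Γ : Matrix (Fin κ) (Fin κ) ℂ := Matrix.of fun i j => kern f (s i) (s j) with hΓ
  have hH : Γ⁻¹.IsHermitian :=
    IsHermitian.inv (Matrix.ext fun i j => (kern_herm f _ _).symm)
  obtain ⟨U, hU, hG⟩ : ∃ U : Matrix (Fin κ) (Fin κ) ℂ, IsUnit U.det ∧
      Γ⁻¹ = Uᴴ * diagonal (fun a => (hH.eigenvalues a : ℂ)) * U := by
    refine ⟨star (hH.eigenvectorUnitary : Matrix _ _ ℂ), ?_, ?_⟩
    · rw [← isUnit_iff_isUnit_det]
      exact (Unitary.isUnit_coe (U := hH.eigenvectorUnitary)).star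
    · conv_lhs => rw [hH.spectral_theorem, Unitary.conjStarAlgAut_apply]
      rw [star_eq_conjTranspose, conjTranspose_conjTranspose]
      rfl
  generalize hH.eigenvalues = l at hG
  have hk : ∀ z w : unitBall n, kern f z w = star (U *ᵥ fun i => kern f (s i) z) ⬝ᵥ
      (diagonal (fun a => (l a : ℂ)) *ᵥ (U *ᵥ fun i => kern f (s i) w)) := by
    intro z w
    rw [hs, hG, ← dot_conj]
    congr 1
    exact funext fun j => kern_herm _ _ _
  by_cases hpos : ∀ a, 0 ≤ l a
  · refine kernelPSD_of_psd ?_ _ hk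
    open scoped ComplexOrder in
    exact psd_iff.2 (posSemidef_diagonal_iff.2 fun a => by exact_mod_cast hpos a)
  · push Not at hpos
    obtain ⟨a0, h0⟩ := hpos
    obtain ⟨τ, _, α, β, hsep⟩ := hh_sep P q d
    refine absurd (core f (fun w => U *ᵥ fun i => kern f (s i) w) l h0
      (fun z hz w hw => by
        rw [← hk ⟨z, hz⟩ ⟨w, hw⟩, kern, mul_div_cancel₀ _ (one_sub_dot_ne hz hw)]) s (by
        have : (Matrix.of fun i j => (U *ᵥ fun a => kern f (s a) (s i)) j) = (U * Γ)ᵀ := rfl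
        rw [this, det_transpose, det_mul]
        exact (hU.mul hu).ne_zero)
      (fun a => ∑ i, C (U a i / eval (s i) q) * ∑ j, C (eval (s i) (α j)) * β j)
      (fun w => star (eval w q)) (fun w hw => ⟨star_ne_zero.2 (h w hw).1, fun a => ?_⟩) hκ)
      hm.not_ge
    simp only [map_sum, map_mul, eval_C, ← hsep, mulVec, dotProduct]
    rw [Finset.mul_sum]
    refine Finset.sum_congr rfl fun i _ => ?_
    have h1 := (h _ (s i).2).1
    have h2 := star_ne_zero.2 (h w hw).1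
    rw [kern_eq hf hP hq hd h (s i).2 hw]
    field_simp

theorem kernelPSD_strong {κ : ℕ} {f : (Fin n → ℂ) → (Fin N → ℂ)} (hf : IsProperHol f) {d : ℕ}
    (hd : RatDegLE f d)
    (h1 : (κ - 1).choose 2 + 1 < n ∨ ∃ m, κ < (m + 1).choose 2 ∧ m * κ + 1 < n)
    (h2 : N + 1 < (κ + 1) * (n + 1 - κ)) (h3 : N + 1 < (n + 1 - 2 * κ).choose 2) :
    KernelPSD f := by
  obtain h1 | ⟨m, hm, h1⟩ := h1
  · exact kernelPSD_of_range hf hd h1 h2 h3
  have hd1 : 1 ≤ d := by
    rcases Nat.eq_zero_or_pos d with h0 | h0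
    · exact absurd (h0 ▸ hd) (deg_pos (by omega) hf)
    · exact h0
  obtain ⟨P, q, hP, hq, h⟩ := hd
  obtain ⟨κ0, s, hu, hs⟩ := kern_basis hf hP hq hd1 h
  rcases le_or_gt κ0 κ with hk | hk
  · exact stepI' hf hP hq hd1 h s hu hs (hk.trans_lt hm)
      (lt_of_le_of_lt (Nat.succ_le_succ (Nat.mul_le_mul_left m hk)) h1)
  · exfalso
    obtain ⟨a, a', ha⟩ := exists_minor (fun z w : unitBall n => kern f z w) (b := κ + 1) hk s s
      hu.ne_zero
    have hn2 : 2 * κ ≤ n := by
      by_contra hh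
      rw [Nat.sub_eq_zero_of_le (by omega : n + 1 ≤ 2 * κ)] at h3
      simp at h3
    have := rank_bound (polar hP hq hd1 (boundary_RR hf h)) (fun i => a i) (fun l => star (a' l))
      (fun h0 => ha (by
        have e : (Matrix.of fun i l => kern f (a i) (a' l)) =
            diagonal (fun i => (eval (a i) q)⁻¹) * (Matrix.of fun i l =>
              hh P q d (a i) (star (a' l))) * diagonal fun l => (star (eval (a' l) q))⁻¹ := by
          ext i l
          rw [mul_diagonal, diagonal_mul, of_apply, of_apply,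
            kern_eq hf hP hq hd1 h (a i).2 (a' l).2]
          ring
        rw [e, det_mul, det_mul, h0, mul_zero, zero_mul])) hn2
    omega

end Pool.Agent.MP_eddcad_an.H43s
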