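import Mathlib
import Pool.Agent.MP_eddcad_an.h24.StepI

set_option autoImplicit false
set_option linter.unusedSectionVars false

namespace Pool.Agent.MP_eddcad_an.H43s

open Matrix Filter Topology Set Module Submodule
open Pool.Agent.MP_eddcad_an.H24

variable {E : Type} [NormedAddCommGroup E] [NormedSpace ℂ E] [FiniteDimensional ℂ E]

theorem ident {P : Type} [NormedAddCommGroup P] [NormedSpace ℂ P] {g : P → ℂ}
    (hg : Differentiable ℂ g) {p0 : P} (h : ∀ᶠ p in 𝓝 p0, g p = 0) (p : P) : g p = 0 := by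
  have hl : Differentiable ℂ fun t : ℂ => p0 + t • (p - p0) := by fun_prop
  have h1 : AnalyticOnNhd ℂ (fun t : ℂ => g (p0 + t • (p - p0))) univ :=
    fun t _ => (hg.comp hl).analyticAt t
  have h2 : Tendsto (fun t : ℂ => p0 + t • (p - p0)) (𝓝 0) (𝓝 p0) := by
    simpa using hl.continuous.tendsto 0
  have h3 := h1.eq_of_eventuallyEq (g := fun _ => 0) analyticOnNhd_const (z₀ := 0)
    (h2.eventually h)
  simpa using congrFun h3 1

theorem sc {X α : Type} [TopologicalSpace X] (u : X → α → E) {x0 : X}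
    (hu : ∀ a, ContinuousAt (fun x => u x a) x0) :
    ∀ᶠ x in 𝓝 x0, finrank ℂ (span ℂ (range (u x0))) ≤ finrank ℂ (span ℂ (range (u x))) := by
  obtain ⟨f, h1, -, h3⟩ := Submodule.exists_fun_fin_finrank_span_eq ℂ (range (u x0))
  choose a ha using h1
  have h4 : Tendsto (fun x i => u x (a i)) (𝓝 x0) (𝓝 f) :=
    tendsto_pi_nhds.2 fun i => ha i ▸ hu (a i)
  filter_upwards [h4.eventually h3.eventually] with x hx
  have h5 := finrank_span_eq_card hx
  rw [Fintype.card_fin] at h5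
  rw [← h5]
  exact Submodule.finrank_mono (span_mono (by rintro _ ⟨i, rfl⟩; exact ⟨_, rfl⟩))

theorem lim {α : Type} (u : ℂ → α → E) (hu : ∀ a, ContinuousAt (fun t => u t a) 0) {η : ℂ → E}
    {η' : E} (h0 : η 0 = 0) (hd : HasDerivAt η η' 0) (hm : ∀ t, η t ∈ span ℂ (range (u t)))
    (hr : ∀ᶠ t in 𝓝 0, finrank ℂ (span ℂ (range (u t))) ≤ finrank ℂ (span ℂ (range (u 0)))) :
    η' ∈ span ℂ (range (u 0)) := by
  have h1 := sc (fun t (o : Option α) => o.elim (dslope η 0 t) (u t)) (x0 := 0) fun o => by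
    cases o with
    | none => exact continuousAt_dslope_same.2 hd.differentiableAt
    | some a => exact hu a
  obtain ⟨t, ⟨h2, h3⟩, ht⟩ := (((h1.and hr).filter_mono nhdsWithin_le_nhds).and
    (self_mem_nhdsWithin (a := (0 : ℂ)) (s := {0}ᶜ))).exists
  have h4 : span ℂ (range fun o : Option α => o.elim (dslope η 0 t) (u t)) ≤
      span ℂ (range (u t)) := span_le.2 (by
    rintro _ ⟨_ | a, rfl⟩
    · simp only [Option.elim]
      rw [dslope_of_ne _ ht, slope_def_module, h0, sub_zero (η t)]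
      exact smul_mem _ _ (hm t)
    · exact subset_span ⟨a, rfl⟩)
  have h5 := Submodule.eq_of_le_of_finrank_le (S₁ := span ℂ (range (u 0)))
    (span_mono (by rintro _ ⟨a, rfl⟩; exact ⟨some a, rfl⟩))
    (h2.trans ((Submodule.finrank_mono h4).trans h3))
  rw [h5]
  exact subset_span ⟨none, by simp [hd.deriv]⟩

theorem gen {X : Type} [TopologicalSpace X] [Nonempty X] (r : ℕ → X → ℕ) (B K : ℕ)
    (hB : ∀ k x, r k x ≤ B) (hs : ∀ k x, ∀ᶠ x' in 𝓝 x, r k x ≤ r k x') :
    ∃ x0, ∀ᶠ x in 𝓝 x0, ∀ k < K, ∀ᶠ x' in 𝓝 x, r k x' ≤ r k x := by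
  let F : X → ℕ := fun x => ∑ k ∈ Finset.range K, r k x
  have hb : BddAbove (range F) := ⟨(Finset.range K).card • B, by
    rintro _ ⟨x, rfl⟩
    exact Finset.sum_le_card_nsmul _ _ _ fun k _ => hB k x⟩
  obtain ⟨x0, h0⟩ := Nat.sSup_mem (range_nonempty F) hb
  have hle : ∀ x, F x ≤ F x0 := fun x => h0 ▸ le_csSup hb ⟨x, rfl⟩
  have hall : ∀ x, ∀ᶠ x' in 𝓝 x, ∀ k ∈ Finset.range K, r k x ≤ r k x' :=
    fun x => (Filter.eventually_all_finset _).2 fun k _ => hs k x
  refine ⟨x0, (hall x0).mono fun x hx k hk => (hall x).mono fun x' hx' => ?_⟩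
  exact ((Finset.sum_eq_sum_iff_of_le hx').1 (le_antisymm (Finset.sum_le_sum hx')
    ((hle x').trans (Finset.sum_le_sum hx))) k (Finset.mem_range.2 hk)).ge

theorem open_van {P : Type} [NormedAddCommGroup P] [NormedSpace ℂ P] [CompleteSpace P]
    {Ψ : P → E} (hΨ : ContDiff ℂ 1 Ψ) (J : Submodule ℂ E) (hJ : ∀ p, Ψ p ∈ J)
    (hs : J ≤ span ℂ {η | ∃ w, HasDerivAt (fun t : ℂ => Ψ (t • w)) η 0}) {Δ : E → ℂ}
    (hΔ : Differentiable ℂ Δ) (h : ∀ p, Δ (Ψ p) = 0) : ∀ ξ ∈ J, Δ ξ = 0 := by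
  obtain ⟨π, hπ⟩ := J.subtype.exists_leftInverse_of_injective J.ker_subtype
  have hπ' : ∀ ξ : J, π ξ = ξ := fun ξ => LinearMap.congr_fun hπ ξ
  have h1 := (hΨ.contDiffAt (x := 0)).hasStrictFDerivAt one_ne_zero
  have h2 := (LinearMap.toContinuousLinearMap π).hasStrictFDerivAt.comp 0 h1
  have h3 : J ≤ (fderiv ℂ Ψ 0).range := hs.trans (span_le.2 (by
    rintro η ⟨w, hw⟩
    refine ⟨w, HasDerivAt.unique ?_ hw⟩
    have h4 : HasDerivAt (fun t : ℂ => t • w) w 0 := by
      simpa using (hasDerivAt_id (0 : ℂ)).smul_const w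
    exact HasFDerivAt.comp_hasDerivAt_of_eq 0 h1.hasFDerivAt h4 (by simp)))
  have h5 := h2.map_nhds_eq_of_surj (eq_top_iff.2 fun ξ _ => by
    obtain ⟨w, hw⟩ := h3 ξ.2
    exact ⟨w, by rw [← hπ' ξ, ← hw]; rfl⟩)
  intro ξ hξ
  refine ident (g := fun ξ : J => Δ ξ) (hΔ.comp J.subtypeL.differentiable) (p0 := π (Ψ 0)) ?_
    ⟨ξ, hξ⟩
  have : ∀ᶠ ξ : J in map (fun p => π (Ψ p)) (𝓝 0), Δ ξ = 0 :=
    eventually_map.2 (Eventually.of_forall fun p => by
      rw [show π (Ψ p) = ⟨Ψ p, hJ p⟩ from hπ' ⟨_, hJ p⟩]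
      exact h p)
  exact h5 ▸ this

variable {Y : Type}

/-- span of the vectors of level below `k` -/
def Jk (u : ℕ → Y → E) (k : ℕ) : Submodule ℂ E :=
  span ℂ (range fun p : Fin k × Y => u p.1 p.2)

theorem mem_Jk (u : ℕ → Y → E) {j k : ℕ} (h : j < k) (y : Y) : u j y ∈ Jk u k :=
  subset_span ⟨(⟨j, h⟩, y), rfl⟩

theorem Jk_le {u : ℕ → Y → E} {k : ℕ} {M : Submodule ℂ E} (h : ∀ j < k, ∀ y, u j y ∈ M) :
    Jk u k ≤ M :=
  span_le.2 (by rintro _ ⟨p, rfl⟩; exact h _ p.1.2 _)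

theorem rel_of_tilt (u : ℂ → ℕ → Y → E) (φ : Y → ℂ)
    (hd : ∀ k y, HasDerivAt (fun t => u t k y) ((((k + 1 : ℕ) : ℂ) * φ y) • u 0 (k + 1) y) 0)
    {k : ℕ} (hr : ∀ᶠ t in 𝓝 0, finrank ℂ (Jk (u t) (k + 1)) ≤ finrank ℂ (Jk (u 0) (k + 1)))
    (c : Y →₀ ℂ) (hc : Finsupp.linearCombination ℂ (u 0 k) c ∈ Jk (u 0) k) :
    Finsupp.linearCombination ℂ (fun y => φ y • u 0 (k + 1) y) c ∈ Jk (u 0) (k + 1) := by
  obtain ⟨d, hd'⟩ := Finsupp.mem_span_range_iff_exists_finsupp.1 hc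
  have h1 := lim (fun t (p : Fin (k + 1) × Y) => u t p.1 p.2)
    (fun p => (hd _ _).continuousAt)
    (η := fun t => ∑ y ∈ c.support, c y • u t k y - ∑ p ∈ d.support, d p • u t p.1 p.2)
    (sub_eq_zero.2 hd'.symm)
    ((HasDerivAt.fun_sum fun y _ => (hd k y).const_smul (c y)).sub
      (HasDerivAt.fun_sum fun p _ => (hd p.1 p.2).const_smul (d p)))
    (fun t => sub_mem (sum_mem fun y _ => smul_mem _ _ (mem_Jk _ k.lt_succ_self _))
      (sum_mem fun p _ => smul_mem _ _ (mem_Jk _ (by have := p.1.2; omega) _))) hr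
  have h2 := add_mem h1 (sum_mem (t := d.support) fun p _ => smul_mem _ (d p) (smul_mem _
    (((p.1 + 1 : ℕ) : ℂ) * φ p.2) (mem_Jk (u 0) (j := p.1 + 1) (k := k + 1) (by simp) p.2)))
  rw [sub_add_cancel] at h2
  rw [← smul_mem_iff _ (show ((k + 1 : ℕ) : ℂ) ≠ 0 by exact_mod_cast k.succ_ne_zero),
    Finsupp.linearCombination_apply, Finsupp.sum, Finset.smul_sum]
  simp only [mul_smul, smul_comm (c _) ((k + 1 : ℕ) : ℂ)] at h2
  exact h2

/-- functions obtained from functionals on the quotient of level `k` -/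
noncomputable def Hk (u : ℕ → Y → E) (k : ℕ) : Submodule ℂ (Y → ℂ) :=
  (Jk u k).dualAnnihilator.map (LinearMap.pi fun y => Dual.eval ℂ E (u k y))

theorem mem_Hk {u : ℕ → Y → E} {k : ℕ} {h : Y → ℂ} :
    h ∈ Hk u k ↔ ∃ l : Dual ℂ E, (∀ ξ ∈ Jk u k, l ξ = 0) ∧ (fun y => l (u k y)) = h := by
  simp only [Hk, Submodule.mem_map, Submodule.mem_dualAnnihilator]
  rfl

theorem mul_mem_Hk {u : ℕ → Y → E} {k : ℕ} {φ : Y → ℂ}
    (hrel : ∀ c : Y →₀ ℂ, Finsupp.linearCombination ℂ (u k) c ∈ Jk u k →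
      Finsupp.linearCombination ℂ (fun y => φ y • u (k + 1) y) c ∈ Jk u (k + 1))
    {h : Y → ℂ} (hh : h ∈ Hk u (k + 1)) : (fun y => φ y * h y) ∈ Hk u k := by
  obtain ⟨l, hl, rfl⟩ := mem_Hk.1 hh
  have h1 : Finsupp.linearCombination ℂ (fun y => φ y * l (u (k + 1) y)) ∈
      (LinearMap.ker ((Jk u k).mkQ ∘ₗ Finsupp.linearCombination ℂ (u k))).dualAnnihilator := by
    rw [mem_dualAnnihilator]
    intro c hc
    rw [← hl _ (hrel c ((Quotient.mk_eq_zero _).1 hc)), Finsupp.apply_linearCombination]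
    congr 2
    funext y
    simp
  rw [← LinearMap.range_dualMap_eq_dualAnnihilator_ker] at h1
  obtain ⟨μ, hμ⟩ := h1
  refine mem_Hk.2 ⟨μ ∘ₗ (Jk u k).mkQ, fun ξ hξ => ?_, funext fun y => ?_⟩
  · rw [LinearMap.comp_apply, mkQ_apply, (Quotient.mk_eq_zero _).2 hξ, map_zero]
  · simpa using LinearMap.congr_fun hμ (Finsupp.single y 1)

theorem choose_sq (m : ℕ) : (m + 1).choose 2 + m.choose 2 = m * m := by
  induction m with
  | zero => rfl
  | succ m ih =>
    rw [Nat.choose_succ_succ' (m + 1) 1, Nat.choose_one_right]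
    rw [Nat.choose_succ_succ' m 1, Nat.choose_one_right] at ih ⊢
    nlinarith

variable {m : ℕ} {u : ℕ → (Fin m → ℂ) → E}

theorem count (hu : ∀ k, Continuous (u k)) {k : ℕ}
    (hrel : ∀ i, ∀ h ∈ Hk u (k + 1), (fun y => y i * h y) ∈ Hk u k)
    (h : Fin m → (Fin m → ℂ) → ℂ) (hh : ∀ a, h a ∈ Hk u (k + 1)) (p : Fin m → Fin m → ℂ)
    (hdet : (Matrix.of fun l a => h a (p l)).det ≠ 0) : (m + 1).choose 2 ≤ finrank ℂ E := by
  let Λ : (Fin m → Fin m → ℂ) →ₗ[ℂ] ((Fin m → ℂ) → ℂ) :=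
    { toFun := fun σ => ∑ a, ∑ i, σ a i • fun y => y i * h a y
      map_add' := fun σ σ' => by simp [add_smul, Finset.sum_add_distrib]
      map_smul' := fun c σ => by simp [Finset.smul_sum, mul_smul] }
  have h2 := LinearMap.finrank_range_add_finrank_ker Λ
  have h3 : LinearMap.range Λ ≤ Hk u k := by
    rintro _ ⟨σ, rfl⟩
    exact sum_mem (t := Finset.univ) fun a _ => sum_mem (t := Finset.univ) fun i _ =>
      smul_mem _ (σ a i) (hrel i _ (hh a))
  have h4 : finrank ℂ (Hk u k) ≤ finrank ℂ E :=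
    (finrank_map_le _ _).trans ((Submodule.finrank_le _).trans Subspace.dual_finrank_eq.le)
  have : Module.Finite ℂ (Hk u k) := by unfold Hk; infer_instance
  have h5 := Submodule.finrank_mono h3
  have h6 : finrank ℂ (LinearMap.ker Λ) ≤ m.choose 2 := by
    refine syz_bound (fun y a => h a y) p (fun l => (continuous_pi fun a => ?_).continuousAt) hdet
      { toFun := fun s y a => s.1 a ⬝ᵥ y
        map_add' := fun _ _ => by ext; simp
        map_smul' := fun _ _ => by ext; simp } (fun s Z v t => ?_) (fun s hs => ?_) fun s l => ?_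
    · obtain ⟨l, -, hl⟩ := mem_Hk.1 (hh a)
      rw [← hl]
      exact l.continuous_of_finiteDimensional.comp (hu _)
    · funext a
      simp
    · refine Subtype.ext (funext fun a => funext fun i => ?_)
      simpa using congrFun (congrFun hs (Pi.single i 1)) a
    · refine Eventually.of_forall fun y => ?_
      have := congrFun (LinearMap.mem_ker.1 s.2) y
      dsimp only [Λ, LinearMap.coe_mk, AddHom.coe_mk] at this
      simpa [ dotProduct, Finset.sum_mul, mul_assoc] using this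
  have h7 := choose_sq m
  simp only [Module.finrank_pi_fintype, finrank_self, Finset.sum_const, Finset.card_univ,
    Fintype.card_fin, smul_eq_mul, mul_one] at h2
  omega

theorem span_open {O : Set (Fin m → ℂ)} (hO : IsOpen O) (hne : O.Nonempty) : span ℂ O = ⊤ :=
  Submodule.eq_top_of_nonempty_interior' _
    (hne.mono (interior_maximal subset_span hO))

theorem level_two (hu : ∀ k, Continuous (u k))
    (hrel : ∀ k i, ∀ h ∈ Hk u (k + 1), (fun y => y i * h y) ∈ Hk u k)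
    (hκ : finrank ℂ E < (m + 1).choose 2) (k : ℕ) (y : Fin m → ℂ) : u k y ∈ Jk u 2 := by
  induction k using Nat.strong_induction_on generalizing y with
  | _ k ih =>
    rcases lt_or_ge k 2 with hk | hk
    · exact mem_Jk u hk y
    obtain ⟨k, rfl⟩ := Nat.exists_eq_add_of_le' hk
    refine Jk_le ih ((Subspace.forall_mem_dualAnnihilator_apply_eq_zero_iff _ _).1 fun l hl => ?_)
    by_contra h0
    have hc : Continuous fun z => l (u (k + 2) z) := l.continuous_of_finiteDimensional.comp (hu _)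
    have h1 : span ℂ (range fun z : Fin m → ℂ => l (u (k + 2) z) • z) = ⊤ := by
      rw [eq_top_iff, ← span_open (isOpen_ne_fun hc continuous_const (g := fun _ => 0)) ⟨y, h0⟩,
        span_le]
      intro z hz
      exact (smul_mem_iff _ hz).1 (subset_span ⟨z, rfl⟩)
    obtain ⟨f, h2, -, h3⟩ := Submodule.exists_fun_fin_finrank_span_eq ℂ
      (range fun z : Fin m → ℂ => l (u (k + 2) z) • z)
    choose p hp using h2
    have e : m = finrank ℂ (span ℂ (range fun z : Fin m → ℂ => l (u (k + 2) z) • z)) := by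
      rw [h1, finrank_top, finrank_fin_fun]
    refine hκ.not_ge (count hu (hrel k) (fun a z => z a * l (u (k + 2) z))
      (fun a => hrel _ a _ (mem_Hk.2 ⟨l, (mem_dualAnnihilator _).1 hl, rfl⟩))
      (fun i => p (Fin.cast e i)) ((isUnit_iff_isUnit_det _).1
        (linearIndependent_rows_iff_isUnit.1 ?_)).ne_zero)
    convert! h3.comp _ (Fin.cast_injective e) using 1
    funext i a
    simp [← hp, mul_comm]

theorem dual_fam {T : Type} [AddCommGroup T] [Module ℂ T] {j : ℕ} {w : Fin j → T}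
    (hw : LinearIndependent ℂ w) : ∃ G : T →ₗ[ℂ] (Fin j → ℂ), ∀ l, G (w l) = Pi.single l 1 := by
  obtain ⟨G, hG⟩ := (Fintype.linearCombination ℂ w).exists_leftInverse_of_injective
    (LinearMap.ker_eq_bot.2 (linearIndependent_iff_injective_fintypeLinearCombination.1 hw))
  exact ⟨G, fun l => by simpa using LinearMap.congr_fun hG (Pi.single l 1)⟩

theorem level_one (hu : ∀ k, Continuous (u k))
    (hrel : ∀ i, ∀ h ∈ Hk u (0 + 1), (fun y => y i * h y) ∈ Hk u 0)
    (hκ : finrank ℂ E < (m + 1).choose 2) :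
    ∃ (j : ℕ) (y : Fin j → Fin m → ℂ), LinearIndependent ℂ y ∧
      ∀ z, u 1 z ∈ Jk u 1 ⊔ span ℂ (range fun l => u 1 (y l)) := by
  by_contra hn
  push Not at hn
  have key : ∀ j ≤ m, ∃ y : Fin j → Fin m → ℂ, LinearIndependent ℂ y ∧
      LinearIndependent ℂ fun l => (Jk u 1).mkQ (u 1 (y l)) := by
    intro j hj
    induction j with
    | zero => exact ⟨Fin.elim0, linearIndependent_empty_type, linearIndependent_empty_type⟩
    | succ j ih =>
      obtain ⟨y, h1, h2⟩ := ih (by omega)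
      have h3 := span_open (((Jk u 1 ⊔ span ℂ (range fun l => u 1 (y l))).closed_of_finiteDimensional.preimage
        (hu 1)).isOpen_compl) (hn j y h1)
      have h4 : ∃ z, u 1 z ∉ Jk u 1 ⊔ span ℂ (range fun l => u 1 (y l)) ∧
          z ∉ span ℂ (range y) := by
        by_contra h5
        push Not at h5
        have h6 := Submodule.finrank_mono (h3.ge.trans (span_le.2 h5))
        rw [finrank_top, finrank_fin_fun, finrank_span_eq_card h1, Fintype.card_fin] at h6
        omega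
      obtain ⟨z, h5, h6⟩ := h4
      refine ⟨Fin.cons z y, h1.finCons h6, ?_⟩
      have h7 := h2.finCons (x := (Jk u 1).mkQ (u 1 z)) fun h8 => h5 (by
        rw [← comap_map_mkQ, map_span, ← range_comp]
        exact h8)
      convert! h7 using 1
      funext l
      cases l using Fin.cases <;> rfl
  obtain ⟨y, -, h2⟩ := key m le_rfl
  obtain ⟨G, hG⟩ := dual_fam h2
  refine hκ.not_ge (count hu hrel (fun a z => G ((Jk u 1).mkQ (u 1 z)) a) (fun a => mem_Hk.2
    ⟨LinearMap.proj a ∘ₗ G ∘ₗ (Jk u 1).mkQ, fun ξ hξ => ?_, rfl⟩) y ?_)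
  · simp [(Quotient.mk_eq_zero _).2 hξ]
  · rw [show (Matrix.of fun l a => G ((Jk u 1).mkQ (u 1 (y l))) a) = 1 from ?_, det_one]
    · exact one_ne_zero
    ext l a
    rw [of_apply, hG, one_apply, Pi.single_apply]
    simp only [eq_comm]

end Pool.Agent.MP_eddcad_an.H43s
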